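import Pool.Agent.T6.H2.FR.Iso
import Pool.Agent.T6.H2.PR.Cls

set_option autoImplicit false

/-!
# Every large even number is the sum of a Chen prime in `(√N, 4 √N)` and of an almost prime (helper2)

Let `f_1, ..., f_J` and `g_1, ..., g_K` be integers, `f_j ≠ 0`. For every `a`, all large `X` and ALL `N ≤ X ^ a` which
satisfy the local condition we count the primes `n ≤ X` (in windows of length `≥ η X`) for which `n + f_j` is a product
of at most two primes, all the `n + f_l` and all the `N + g_l - n` are products of a bounded number of primes, all large,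
and every other integer near one of these numbers has a small prime factor. Their number has the order of magnitude
`(B - A) V`, the same as the number of the `n` for which none of these numbers has a prime factor `≤ X ^ β`, and almost
all of them are covered by narrow monochromatic progressions. No `N` is excepted.

In particular every large even `N` is the sum of a prime `p` with `√N < p < 4 √N` such that `p + 6` is a product of at
most two primes, and of an almost prime `N - p`, in `≥ κ √N / (log N) ^ 3` ways, and these representations are isolated.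
-/

namespace Pool.Agent.Results.MP_b58c63_nt.ChenPrimesEveryNumber

open Finset Filter
open Pool.Agent.X32.Uni Pool.Agent.T6.H2.PT Pool.Agent.T6.H2.FR

/-- `|v| > 1`, and `|v|` is a product of at most `r` primes, all of them larger than `y` -/
def AlmostPrime (r : ℕ) (y : ℝ) (v : ℤ) : Prop :=
  1 < |v| ∧ v.natAbs.primeFactorsList.length ≤ r ∧ ∀ p : ℕ, p.Prime → (p : ℤ) ∣ v → y < p

variable {J K : ℕ}

/-- the numbers `n`, `n + f_l` and `N + g_l - n` -/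
def vals (f : Fin J → ℤ) (g : Fin K → ℤ) (N n : ℕ) : Set ℤ :=
  {v | v = (n : ℤ) ∨ (∃ l, v = n + f l) ∨ ∃ l, v = N + g l - n}

/-- all the integers `z` at distance at most `w` of one of the numbers `vals f g N n`, except for the numbers `± v`, `v`
one of them, have a prime factor `≤ y` -/
def Isolated (f : Fin J → ℤ) (g : Fin K → ℤ) (N : ℕ) (w y : ℝ) (n : ℕ) : Prop :=
  ∀ v ∈ vals f g N n, ∀ z : ℤ, |(z : ℝ) - v| ≤ w → (∀ v' ∈ vals f g N n, z ≠ v' ∧ z ≠ -v') →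
    ∃ q : ℕ, q.Prime ∧ (q : ℝ) ≤ y ∧ (q : ℤ) ∣ z

open Classical in
/-- the primes `n` in `(A, B]` such that `n + f_j` is a product of at most two primes `> X ^ (1/9)`, all the numbers
`vals f g N n` are products of at most `T` primes `> X ^ (1/t)`, and `n` is isolated -/
noncomputable def Good (f : Fin J → ℤ) (g : Fin K → ℤ) (j : Fin J) (t T N X : ℕ) (w y : ℝ) (A B : ℕ) : Finset ℕ :=
  (Ioc A B).filter (fun n : ℕ => n.Prime ∧ AlmostPrime 2 ((X : ℝ) ^ (1 / 9 : ℝ)) (n + f j) ∧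
    (∀ v ∈ vals f g N n, AlmostPrime T ((X : ℝ) ^ (1 / (t : ℝ))) v) ∧ Isolated f g N w y n)

open Classical in
/-- the `n` in `(A, B]` such that none of the numbers `vals f g N n` has a prime factor `≤ y` -/
noncomputable def Rough (f : Fin J → ℤ) (g : Fin K → ℤ) (N : ℕ) (y : ℝ) (A B : ℕ) : Finset ℕ :=
  (Ioc A B).filter (fun n : ℕ => ∀ v ∈ vals f g N n, ∀ q : ℕ, q.Prime → (q : ℝ) ≤ y → ¬ (q : ℤ) ∣ v)

/-- the local condition -/
def Local (f : Fin J → ℤ) (g : Fin K → ℤ) (N : ℕ) : Prop :=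
  ∀ p : ℕ, p.Prime → ∃ n : ℕ, ∀ v ∈ vals f g N n, ¬ (p : ℤ) ∣ v

open Classical in
/-- the number of the `n` modulo `p` for which `p` divides one of the numbers `vals f g N n` -/
noncomputable def nu (f : Fin J → ℤ) (g : Fin K → ℤ) (N p : ℕ) : ℕ :=
  ((range p).filter (fun n : ℕ => ∃ v ∈ vals f g N n, (p : ℤ) ∣ v)).card

/-- the product of the `1 - nu / p` over the primes `p ≤ X` -/
noncomputable def V (f : Fin J → ℤ) (g : Fin K → ℤ) (N X : ℕ) : ℝ :=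
  ∏ p ∈ (Icc 1 X).filter Nat.Prime, (1 - (nu f g N p : ℝ) / p)

/-- the terms `a, a + b, ..., a + (s - 1) b` of the progression `z = (a, b)` -/
def terms (s : ℕ) (z : ℕ × ℕ) : Finset ℕ := (range s).image (fun i => z.1 + i * z.2)

/-- the slopes and the constant terms -/
def sl (J K : ℕ) : Fin (J + K + 1) → ℤ := Fin.cons 1 (Fin.append (fun _ : Fin J => 1) (fun _ : Fin K => -1))
def co (f : Fin J → ℤ) (g : Fin K → ℤ) (N : ℕ) : Fin (J + K + 1) → ℤ :=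
  Fin.cons 0 (Fin.append f (fun l => (N : ℤ) + g l))

theorem sl_succ_l (l : Fin J) : sl J K (Fin.castAdd K l).succ = 1 := by
  unfold sl
  rw [Fin.cons_succ, Fin.append_left]

theorem sl_succ_r (l : Fin K) : sl J K (Fin.natAdd J l).succ = -1 := by
  unfold sl
  rw [Fin.cons_succ, Fin.append_right]

theorem co_succ_l (f : Fin J → ℤ) (g : Fin K → ℤ) (N : ℕ) (l : Fin J) : co f g N (Fin.castAdd K l).succ = f l := by
  unfold co
  rw [Fin.cons_succ, Fin.append_left]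

theorem co_succ_r (f : Fin J → ℤ) (g : Fin K → ℤ) (N : ℕ) (l : Fin K) :
    co f g N (Fin.natAdd J l).succ = N + g l := by
  unfold co
  rw [Fin.cons_succ, Fin.append_right]

theorem idx_cases (P : Fin (J + K + 1) → Prop) (h0 : P 0) (h1 : ∀ l : Fin J, P (Fin.castAdd K l).succ)
    (h2 : ∀ l : Fin K, P (Fin.natAdd J l).succ) (l : Fin (J + K + 1)) : P l := by
  refine Fin.cases h0 (fun l => ?_) l
  exact Fin.addCases h1 h2 l

theorem vals_iff (f : Fin J → ℤ) (g : Fin K → ℤ) (N n : ℕ) (v : ℤ) :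
    v ∈ vals f g N n ↔ ∃ l, v = sl J K l * (n : ℤ) + co f g N l := by
  have e0 : sl J K 0 * (n : ℤ) + co f g N 0 = n := by
    change (1 : ℤ) * n + 0 = n
    ring
  unfold vals
  rw [Set.mem_ofPred_eq]
  constructor
  · rintro (h | ⟨l, h⟩ | ⟨l, h⟩)
    · exact ⟨0, by rw [h, e0]⟩
    · exact ⟨(Fin.castAdd K l).succ, by rw [h, sl_succ_l, co_succ_l, one_mul]⟩
    · exact ⟨(Fin.natAdd J l).succ, by rw [h, sl_succ_r, co_succ_r]; ring⟩
  · rintro ⟨l, h⟩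
    revert h
    refine idx_cases (fun l => v = sl J K l * (n : ℤ) + co f g N l → _) (fun h => ?_) (fun l h => ?_) (fun l h => ?_) l
    · exact Or.inl (by rw [h, e0])
    · exact Or.inr (Or.inl ⟨l, by rw [h, sl_succ_l, co_succ_l, one_mul]⟩)
    · exact Or.inr (Or.inr ⟨l, by rw [h, sl_succ_r, co_succ_r]; ring⟩)

theorem good_eq (f : Fin J → ℤ) (g : Fin K → ℤ) (j : Fin J) (t T N X : ℕ) (w y : ℝ) (A B : ℕ) :
    Good f g j t T N X w y A B = GoodFI (sl J K) (co f g N) 0 (Fin.castAdd K j).succ t T X w y A B := by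
  classical
  unfold Good GoodFI GoodF
  rw [filter_filter]
  apply filter_congr
  intro n _
  have e0 : sl J K 0 * (n : ℤ) + co f g N 0 = n := by
    change (1 : ℤ) * n + 0 = n
    ring
  have ej : sl J K (Fin.castAdd K j).succ * (n : ℤ) + co f g N (Fin.castAdd K j).succ = n + f j := by
    rw [sl_succ_l, co_succ_l, one_mul]
  rw [e0, ej, Int.natAbs_natCast]
  constructor
  · rintro ⟨h1, h2, h3, h4⟩
    refine ⟨⟨h1, h2, fun l => h3 _ ((vals_iff f g N n _).2 ⟨l, rfl⟩)⟩, ?_⟩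
    intro l z hz1 hz2
    refine h4 _ ((vals_iff f g N n _).2 ⟨l, rfl⟩) z hz1 (fun v' hv' => ?_)
    obtain ⟨l', rfl⟩ := (vals_iff f g N n _).1 hv'
    exact hz2 l'
  · rintro ⟨⟨h1, h2, h3⟩, h4⟩
    refine ⟨h1, h2, fun v hv => ?_, fun v hv z hz1 hz2 => ?_⟩
    · obtain ⟨l, rfl⟩ := (vals_iff f g N n _).1 hv
      exact h3 l
    · obtain ⟨l, rfl⟩ := (vals_iff f g N n _).1 hv
      exact h4 l z hz1 (fun l' => hz2 _ ((vals_iff f g N n _).2 ⟨l', rfl⟩))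

theorem rough_eq (f : Fin J → ℤ) (g : Fin K → ℤ) (N : ℕ) (y : ℝ) (A B : ℕ) :
    Rough f g N y A B = RL (sl J K) (co f g N) y A B := by
  classical
  unfold Rough RL
  apply filter_congr
  intro n _
  constructor
  · intro h l
    exact h _ ((vals_iff f g N n _).2 ⟨l, rfl⟩)
  · intro h v hv
    obtain ⟨l, rfl⟩ := (vals_iff f g N n _).1 hv
    exact h l

theorem V_eq (f : Fin J → ℤ) (g : Fin K → ℤ) (N X : ℕ) : V f g N X = VL (sl J K) (co f g N) X := by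
  classical
  unfold V VL
  apply prod_congr rfl
  intro p hp
  have hpp := (mem_filter.1 hp).2
  have : nu f g N p = omL (sl J K) (co f g N) p := by
    unfold nu omL
    congr 1
    apply filter_congr
    intro n _
    constructor
    · rintro ⟨v, hv, hd⟩
      obtain ⟨l, rfl⟩ := (vals_iff f g N n _).1 hv
      exact hd.trans (dvd_prod_of_mem (fun l => sl J K l * (n : ℤ) + co f g N l) (mem_univ l))
    · intro h
      obtain ⟨l, _, hl⟩ := (Nat.prime_iff_prime_int.1 hpp).exists_mem_finset_dvd h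
      exact ⟨_, (vals_iff f g N n _).2 ⟨l, rfl⟩, hl⟩
  rw [this]

theorem sys (f : Fin J → ℤ) (g : Fin K → ℤ) (j : Fin J) (hj : f j ≠ 0) (a N X : ℕ)
    (hX : ∑ l, (f l).natAbs + ∑ l, (g l).natAbs + 1 ≤ X) (hN : N ≤ X ^ a) (hloc : Local f g N) :
    SysF (J + K + 1) 1 (∑ l, (f l).natAbs + 1) (a + 1) X (sl J K) (co f g N) 0 (Fin.castAdd K j).succ := by
  have hX1 : (1 : ℤ) ≤ X := by exact_mod_cast (by omega : 1 ≤ X)
  have hfl : ∀ l, |f l| ≤ ((∑ l, (f l).natAbs : ℕ) : ℤ) := by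
    intro l
    have h4 := Finset.single_le_sum (f := fun l => (f l).natAbs) (fun j _ => Nat.zero_le _) (mem_univ l)
    have h5 : ((f l).natAbs : ℤ) ≤ ((∑ l, (f l).natAbs : ℕ) : ℤ) := by exact_mod_cast h4
    rwa [Int.natCast_natAbs] at h5
  have hgl : ∀ l, |g l| ≤ ((∑ l, (g l).natAbs : ℕ) : ℤ) := by
    intro l
    have h4 := Finset.single_le_sum (f := fun l => (g l).natAbs) (fun j _ => Nat.zero_le _) (mem_univ l)
    have h5 : ((g l).natAbs : ℤ) ≤ ((∑ l, (g l).natAbs : ℕ) : ℤ) := by exact_mod_cast h4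
    rwa [Int.natCast_natAbs] at h5
  have hXz : ((∑ l, (f l).natAbs : ℕ) : ℤ) + ((∑ l, (g l).natAbs : ℕ) : ℤ) + 1 ≤ X := by exact_mod_cast hX
  have hf0 : (0 : ℤ) ≤ ((∑ l, (f l).natAbs : ℕ) : ℤ) := by positivity
  have hg0 : (0 : ℤ) ≤ ((∑ l, (g l).natAbs : ℕ) : ℤ) := by positivity
  have hXa : (X : ℤ) ≤ (X : ℤ) ^ (a + 1) := by
    calc (X : ℤ) = X ^ 1 := (pow_one _).symm
      _ ≤ _ := pow_le_pow_right₀ hX1 (by omega)
  refine ⟨?_, ?_, ?_, ?_, ?_, ?_, ?_, ?_, ?_, ?_⟩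
  · refine idx_cases _ (by change (1 : ℤ) ≠ 0; norm_num) (fun l => ?_) (fun l => ?_)
    · rw [sl_succ_l]; norm_num
    · rw [sl_succ_r]; norm_num
  · change (1 : ℤ).natAbs ≤ 1
    norm_num
  · rw [sl_succ_l]; norm_num
  · have h0 : |(1 : ℤ)| ≤ ((∑ l, (f l).natAbs + 1 : ℕ) : ℤ) := by
      push_cast [abs_one]
      have : (0 : ℤ) ≤ ∑ l, |f l| := Finset.sum_nonneg fun l _ => abs_nonneg _
      linarith
    refine idx_cases _ ?_ (fun l => ?_) (fun l => ?_)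
    · change |(1 : ℤ)| ≤ _
      exact h0
    · rw [sl_succ_l]
      exact h0
    · rw [sl_succ_r, abs_neg]
      exact h0
  · change |(0 : ℤ)| ≤ _
    rw [abs_zero]
    positivity
  · rw [co_succ_l]
    refine (hfl j).trans ?_
    have : (0 : ℤ) ≤ ((∑ l, (f l).natAbs : ℕ) : ℤ) := by positivity
    push_cast at this ⊢
    nlinarith
  · refine idx_cases _ ?_ (fun l => ?_) (fun l => ?_)
    · change |(0 : ℤ)| ≤ _
      rw [abs_zero]
      positivity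
    · rw [co_succ_l]
      have := hfl l
      linarith
    · rw [co_succ_r]
      have h1 := hgl l
      have h2 : |(N : ℤ) + g l| ≤ |(N : ℤ)| + |g l| := abs_add_le _ _
      rw [Nat.abs_cast] at h2
      have h3 : (N : ℤ) ≤ (X : ℤ) ^ a := by exact_mod_cast hN
      have h4 : (1 : ℤ) ≤ (X : ℤ) ^ a := one_le_pow₀ hX1
      have h5 : (X : ℤ) ^ (a + 1) = X ^ a * X := pow_succ _ _
      rw [h5]
      nlinarith
  · intro p hp
    obtain ⟨n, hn⟩ := hloc p hp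
    exact ⟨n, fun l => hn _ ((vals_iff f g N n _).2 ⟨l, rfl⟩)⟩
  · rw [co_succ_l]
    intro h
    exact hj (congrArg Prod.snd h)
  · rw [sl_succ_l]
    intro h
    have h1 : (1 : ℤ) = -1 := congrArg Prod.fst h
    omega

/-- the general theorem -/
theorem general (f : Fin J → ℤ) (g : Fin K → ℤ) (j : Fin J) (hj : f j ≠ 0) :
    ∃ t : ℕ, 1 ≤ t ∧ ∃ κ : ℝ, 0 < κ ∧ ∀ β : ℝ, 0 < β → ∃ ε C : ℝ, 0 < ε ∧ ∀ (a s r : ℕ) (η δ : ℝ), 1 ≤ s → 0 < η →
      0 < δ → ∃ c X₀ : ℕ, ∀ X N : ℕ, X₀ ≤ X → N ≤ X ^ a → Local f g N →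
      κ / Real.log X ^ (J + K + 1) ≤ V f g N X ∧ ∀ A B : ℕ, B ≤ X → η * X ≤ (B : ℝ) - A →
        κ * ((B : ℝ) - A) * V f g N X ≤
          ((Good f g j t ((a + 3) * t) N X (ε * Real.log X) ((X : ℝ) ^ β) A B).card : ℝ) ∧
        ((Rough f g N ((X : ℝ) ^ β) A B).card : ℝ) ≤ C * ((B : ℝ) - A) * V f g N X ∧
        ∀ χ : ℕ → Fin r, ∃ P : Finset (ℕ × ℕ),
          (∀ z ∈ P, 1 ≤ z.2 ∧ (z.2 : ℝ) ≤ Real.log X ^ c ∧
            ∀ m < s, z.1 + m * z.2 ∈ Good f g j t ((a + 3) * t) N X (ε * Real.log X) ((X : ℝ) ^ β) A B ∧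
              χ (z.1 + m * z.2) = χ z.1) ∧
          (P : Set (ℕ × ℕ)).PairwiseDisjoint (terms s) ∧
          (((Good f g j t ((a + 3) * t) N X (ε * Real.log X) ((X : ℝ) ^ β) A B \ P.biUnion (terms s)).card : ℕ) : ℝ) ≤
            δ * ((B : ℝ) - A) * V f g N X := by
  classical
  obtain ⟨t, ht, κ, hκ, HF⟩ := farI (J + K + 1) 1 (by omega)
  refine ⟨t, ht, κ, hκ, fun β hβ => ?_⟩
  obtain ⟨ε, hε, HF⟩ := HF β (∑ l, (f l).natAbs + 1) hβ
  obtain ⟨KU, hKU, n₀, HR⟩ := rough_lin (J + K + 1) 1 (by omega) (1 / 2) (by norm_num) β hβ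
  refine ⟨ε, KU, hε, fun a s r η δ hs hη hδ => ?_⟩
  obtain ⟨c, X₀, HF⟩ := HF (a + 1) s r η δ hs hη hδ
  have h4 : ∀ᶠ X : ℕ in atTop, 1 / η ≤ (X : ℝ) ^ (1 / 2 : ℝ) :=
    ((tendsto_rpow_atTop (by norm_num : (0 : ℝ) < 1 / 2)).comp tendsto_natCast_atTop_atTop).eventually_ge_atTop _
  obtain ⟨X₁, h4⟩ := eventually_atTop.1 h4
  refine ⟨c, X₀ + n₀ + X₁ + (∑ l, (f l).natAbs + ∑ l, (g l).natAbs + 1), fun X N hX hN hloc => ?_⟩
  have S := sys f g j hj a N X (by omega) hN hloc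
  obtain ⟨h1, h2⟩ := HF X (by omega) _ _ _ _ S
  rw [V_eq]
  refine ⟨h1, fun A B hB hAB => ?_⟩
  obtain ⟨h3, h5⟩ := h2 A B hB hAB
  rw [good_eq, rough_eq]
  refine ⟨h3, ?_, h5⟩
  refine HR X (by omega) _ _ S.a0 ?_ A B hB ?_
  · refine idx_cases _ ?_ (fun l => ?_) (fun l => ?_)
    · change |(1 : ℤ)| ≤ _
      norm_num
    · rw [sl_succ_l]; norm_num
    · rw [sl_succ_r]; norm_num
  · have hX0 : (0 : ℝ) < X := by exact_mod_cast (by omega : 0 < X)
    refine le_trans ?_ hAB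
    have e1 := h4 X (by omega)
    have e2 : (X : ℝ) ^ (1 / 2 : ℝ) * (X : ℝ) ^ (1 / 2 : ℝ) = X := by
      rw [← Real.rpow_add hX0]
      norm_num
    have e3 : 0 ≤ (X : ℝ) ^ (1 / 2 : ℝ) := by positivity
    rw [div_le_iff₀ hη] at e1
    calc (X : ℝ) ^ (1 / 2 : ℝ) = (X : ℝ) ^ (1 / 2 : ℝ) * 1 := (mul_one _).symm
      _ ≤ (X : ℝ) ^ (1 / 2 : ℝ) * ((X : ℝ) ^ (1 / 2 : ℝ) * η) := by gcongr
      _ = η * X := by rw [← mul_assoc, e2]; ring

theorem local_even (N : ℕ) (h2 : 2 ∣ N) : Local ![(6 : ℤ)] ![(0 : ℤ)] N := by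
  intro p hp
  have key : ∀ n : ℕ, ¬ (p : ℤ) ∣ (n : ℤ) → ¬ (p : ℤ) ∣ (n : ℤ) + 6 → ¬ (p : ℤ) ∣ (N : ℤ) - n →
      ∀ v ∈ vals ![(6 : ℤ)] ![(0 : ℤ)] N n, ¬ (p : ℤ) ∣ v := by
    rintro n h1 h2 h3 v (hv | ⟨l, hv⟩ | ⟨l, hv⟩)
    · rw [hv]; exact h1
    · rw [hv]
      fin_cases l
      simpa using h2
    · rw [hv]
      fin_cases l
      simpa using h3
  rcases Nat.lt_or_ge p 5 with hlt | hge
  · have h4 : p = 2 ∨ p = 3 := by
      have := hp.two_le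
      interval_cases p
      · exact Or.inl rfl
      · exact Or.inr rfl
      · exact absurd hp (by decide)
    rcases h4 with rfl | rfl
    · refine ⟨1, key 1 (by decide) (by decide) ?_⟩
      push_cast
      omega
    · by_cases h5 : N % 3 = 1
      · refine ⟨2, key 2 (by decide) (by decide) ?_⟩
        push_cast
        omega
      · refine ⟨1, key 1 (by decide) (by decide) ?_⟩
        push_cast
        omega
  · obtain ⟨n, hn⟩ := Pool.Agent.T6.H2.PR.adm_big ![(1 : ℤ), 1, -1] ![(0 : ℤ), 6, N] p hp (by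
      have h1 : ¬ (p : ℤ) ∣ 1 := fun h => hp.one_lt.ne' (Nat.dvd_one.1 (by exact_mod_cast h))
      intro l
      fin_cases l
      · exact h1
      · exact h1
      · simpa using h1) (by omega)
    have hp0 : (0 : ℤ) < p := by exact_mod_cast hp.pos
    obtain ⟨n', hn'⟩ := Int.eq_ofNat_of_zero_le (Int.emod_nonneg n hp0.ne')
    have hd : (p : ℤ) ∣ (n' : ℤ) - n := by
      have h1 := Int.emod_add_mul_ediv n p
      rw [hn'] at h1
      exact ⟨-(n / p), by linarith⟩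
    refine ⟨n', key n' (fun h => hn 0 ?_) (fun h => hn 1 ?_) (fun h => hn 2 ?_)⟩
    · have := dvd_sub h hd
      have e : (n' : ℤ) - (n' - n) = 1 * n + 0 := by ring
      rw [e] at this
      exact this
    · have := dvd_sub h hd
      have e : (n' : ℤ) + 6 - (n' - n) = 1 * n + 6 := by ring
      rw [e] at this
      exact this
    · have := dvd_add h hd
      have e : (N : ℤ) - n' + (n' - n) = -1 * n + N := by ring
      rw [e] at this
      exact this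

open Classical in
/-- the window of the conjecture -/
theorem window : ∃ t : ℕ, 1 ≤ t ∧ ∃ κ : ℝ, 0 < κ ∧ ∀ β : ℝ, 0 < β → ∃ ε : ℝ, 0 < ε ∧ ∃ N₀ : ℕ, ∀ N : ℕ, N₀ ≤ N →
    2 ∣ N → κ * (Real.sqrt N / Real.log N ^ 3) ≤ (((range N).filter (fun p : ℕ => p.Prime ∧ Real.sqrt N < p ∧
      (p : ℝ) < 4 * Real.sqrt N ∧ AlmostPrime 2 ((N : ℝ) ^ (1 / 18 : ℝ)) (p + 6) ∧
      AlmostPrime t ((N : ℝ) ^ (1 / (t : ℝ))) (N - p) ∧
      ∀ z : ℤ, (|(z : ℝ) - p| ≤ ε * Real.log N ∨ |(z : ℝ) - (p + 6)| ≤ ε * Real.log N ∨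
        |(z : ℝ) - (N - p)| ≤ ε * Real.log N) → z ≠ p → z ≠ p + 6 → z ≠ N - p →
        ∃ q : ℕ, q.Prime ∧ (q : ℝ) ≤ (N : ℝ) ^ β ∧ (q : ℤ) ∣ z)).card : ℝ) := by
  obtain ⟨t, ht, κ, hκ, HG⟩ := general ![(6 : ℤ)] ![(0 : ℤ)] 0 (by simp)
  refine ⟨5 * t, by omega, 2 * κ ^ 2, by positivity, fun β hβ => ?_⟩
  obtain ⟨ε, C, hε, HG⟩ := HG β hβ
  obtain ⟨c, X₀, HG⟩ := HG 2 1 1 (1 / 2) 1 le_rfl (by norm_num) one_pos
  obtain ⟨X₁, hX₁⟩ := eventually_atTop.1 (Pool.Agent.X32.Uni.log_small 1 (4 * ε))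
  refine ⟨ε / 2, by positivity, (X₀ + X₁ + 10) ^ 2, fun N hN h2N => ?_⟩
  have ht0 : (0 : ℝ) < t := by exact_mod_cast ht
  obtain ⟨s₀, hs₀⟩ : ∃ s₀ : ℝ, s₀ = Real.sqrt N := ⟨_, rfl⟩
  have hs0 : ((X₀ + X₁ + 10 : ℕ) : ℝ) ≤ s₀ := by
    rw [hs₀]
    apply Real.le_sqrt_of_sq_le
    exact_mod_cast hN
  have hX₀r : (0 : ℝ) ≤ X₀ := by positivity
  have hX₁r : (0 : ℝ) ≤ X₁ := by positivity
  push_cast at hs0
  have hs10 : 10 ≤ s₀ := by linarith
  have hss : s₀ * s₀ = N := by rw [hs₀]; exact Real.mul_self_sqrt (by positivity)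
  have hN1 : (1 : ℝ) ≤ N := by nlinarith
  have hN0 : (0 : ℝ) < N := by linarith
  obtain ⟨A, hA⟩ : ∃ A : ℕ, A = ⌊s₀⌋₊ := ⟨_, rfl⟩
  obtain ⟨B, hB⟩ : ∃ B : ℕ, B = ⌈4 * s₀⌉₊ - 1 := ⟨_, rfl⟩
  have hceil : 4 * s₀ ≤ (⌈4 * s₀⌉₊ : ℝ) := Nat.le_ceil _
  have hceil' : (⌈4 * s₀⌉₊ : ℝ) < 4 * s₀ + 1 := Nat.ceil_lt_add_one (by positivity)
  have hc1 : 1 ≤ ⌈4 * s₀⌉₊ := by
    have : (1 : ℝ) ≤ (⌈4 * s₀⌉₊ : ℝ) := by linarith
    exact_mod_cast this
  have hBr : (B : ℝ) = (⌈4 * s₀⌉₊ : ℝ) - 1 := by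
    rw [hB, Nat.cast_sub hc1, Nat.cast_one]
  have hB1 : 4 * s₀ - 1 ≤ B := by linarith
  have hB2 : (B : ℝ) < 4 * s₀ := by linarith
  have hA1 : (A : ℝ) ≤ s₀ := by rw [hA]; exact Nat.floor_le (by positivity)
  have hA2 : s₀ < A + 1 := by rw [hA]; exact Nat.lt_floor_add_one _
  have hBX₀ : X₀ + X₁ + 3 ≤ B := by
    have : ((X₀ + X₁ + 3 : ℕ) : ℝ) ≤ B := by push_cast; linarith
    exact_mod_cast this
  have hNB : N ≤ B ^ 2 := by
    have h5 : s₀ ≤ B := by linarith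
    have : (N : ℝ) ≤ (B : ℝ) ^ 2 := by
      rw [← hss, pow_two]
      exact mul_le_mul h5 h5 (by positivity) (by positivity)
    exact_mod_cast this
  obtain ⟨h1, h3⟩ := HG B N (by omega) hNB (local_even N h2N)
  obtain ⟨h4, -, -⟩ := h3 A B le_rfl (by linarith)
  have hBN : (B : ℝ) ≤ N := by nlinarith
  have hBpos : (0 : ℝ) < B := by linarith
  have hB1' : (1 : ℝ) ≤ B := by linarith
  have hlogB : 0 < Real.log B := Real.log_pos (by linarith)
  have hlogBN : Real.log B ≤ Real.log N := Real.log_le_log hBpos hBN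
  have hlogN : 0 < Real.log N := lt_of_lt_of_le hlogB hlogBN
  have hlogNB : Real.log N ≤ 2 * Real.log B := by
    have h5 : (N : ℝ) ≤ (B : ℝ) ^ 2 := by exact_mod_cast hNB
    calc Real.log N ≤ Real.log ((B : ℝ) ^ 2) := Real.log_le_log hN0 h5
      _ = 2 * Real.log B := by rw [Real.log_pow]; push_cast; ring
  have hcount : 2 * κ ^ 2 * (Real.sqrt N / Real.log N ^ 3) ≤ κ * ((B : ℝ) - A) * V ![(6 : ℤ)] ![(0 : ℤ)] N B := by
    rw [← hs₀]
    calc 2 * κ ^ 2 * (s₀ / Real.log N ^ 3) = κ * (2 * s₀) * (κ / Real.log N ^ 3) := by ring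
      _ ≤ κ * ((B : ℝ) - A) * (κ / Real.log B ^ 3) := by
          have hBA : 2 * s₀ ≤ (B : ℝ) - A := by linarith
          apply mul_le_mul
          · exact mul_le_mul_of_nonneg_left hBA hκ.le
          · apply div_le_div_of_nonneg_left hκ.le (by positivity)
            exact pow_le_pow_left₀ hlogB.le hlogBN 3
          · positivity
          · exact mul_nonneg hκ.le (by linarith)
      _ ≤ κ * ((B : ℝ) - A) * V ![(6 : ℤ)] ![(0 : ℤ)] N B := by
          apply mul_le_mul_of_nonneg_left h1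
          apply mul_nonneg hκ.le
          linarith
  refine hcount.trans (h4.trans ?_)
  have hsmall := hX₁ B (by omega)
  rw [pow_one] at hsmall
  have hpow : ∀ e : ℝ, 0 ≤ e → (N : ℝ) ^ (e / 2) ≤ (B : ℝ) ^ e := by
    intro e he
    have h5 : (N : ℝ) ≤ (B : ℝ) ^ (2 : ℝ) := by
      rw [Real.rpow_two]
      exact_mod_cast hNB
    calc (N : ℝ) ^ (e / 2) ≤ ((B : ℝ) ^ (2 : ℝ)) ^ (e / 2) := Real.rpow_le_rpow hN0.le h5 (by positivity)
      _ = (B : ℝ) ^ e := by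
          rw [← Real.rpow_mul hBpos.le]
          congr 1
          ring
  have hsub : Good ![(6 : ℤ)] ![(0 : ℤ)] 0 t ((2 + 3) * t) N B (ε * Real.log B) ((B : ℝ) ^ β) A B ⊆
      (range N).filter (fun p : ℕ => p.Prime ∧ Real.sqrt N < p ∧
      (p : ℝ) < 4 * Real.sqrt N ∧ AlmostPrime 2 ((N : ℝ) ^ (1 / 18 : ℝ)) (p + 6) ∧
      AlmostPrime (5 * t) ((N : ℝ) ^ (1 / ((5 * t : ℕ) : ℝ))) (N - p) ∧
      ∀ z : ℤ, (|(z : ℝ) - p| ≤ ε / 2 * Real.log N ∨ |(z : ℝ) - (p + 6)| ≤ ε / 2 * Real.log N ∨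
        |(z : ℝ) - (N - p)| ≤ ε / 2 * Real.log N) → z ≠ p → z ≠ p + 6 → z ≠ N - p →
        ∃ q : ℕ, q.Prime ∧ (q : ℝ) ≤ (N : ℝ) ^ β ∧ (q : ℤ) ∣ z) := by
    intro p hp
    unfold Good at hp
    rw [mem_filter, mem_Ioc] at hp
    obtain ⟨⟨g1, g2⟩, g3, g4, g5, g6⟩ := hp
    have hp1 : s₀ < p := by
      have : (A : ℝ) + 1 ≤ p := by exact_mod_cast g1
      linarith
    have hp2 : (p : ℝ) < 4 * s₀ := by
      have : (p : ℝ) ≤ B := by exact_mod_cast g2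
      linarith
    have hpN : (p : ℝ) + s₀ < N := by nlinarith
    have hvp : (p : ℤ) ∈ vals ![(6 : ℤ)] ![(0 : ℤ)] N p := Or.inl rfl
    have hvp6 : (p : ℤ) + 6 ∈ vals ![(6 : ℤ)] ![(0 : ℤ)] N p := Or.inr (Or.inl ⟨0, by simp⟩)
    have hvN : (N : ℤ) - p ∈ vals ![(6 : ℤ)] ![(0 : ℤ)] N p := Or.inr (Or.inr ⟨0, by simp⟩)
    have hvall : ∀ v' ∈ vals ![(6 : ℤ)] ![(0 : ℤ)] N p, v' = (p : ℤ) ∨ v' = (p : ℤ) + 6 ∨ v' = (N : ℤ) - p := by
      rintro v' (hv | ⟨l, hv⟩ | ⟨l, hv⟩)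
      · exact Or.inl hv
      · fin_cases l
        exact Or.inr (Or.inl (by simpa using hv))
      · fin_cases l
        exact Or.inr (Or.inr (by simpa using hv))
    rw [mem_filter, mem_range, ← hs₀]
    refine ⟨?_, g3, hp1, hp2, ⟨g4.1, g4.2.1, fun q hq hd => ?_⟩, ?_, ?_⟩
    · have : (p : ℝ) < N := by linarith
      exact_mod_cast this
    · refine lt_of_le_of_lt ?_ (g4.2.2 q hq hd)
      have := hpow (1 / 9) (by norm_num)
      rwa [show (1 / 9 : ℝ) / 2 = 1 / 18 by norm_num] at this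
    · have h5 := g5 _ hvN
      refine ⟨h5.1, h5.2.1, fun q hq hd => lt_of_le_of_lt ?_ (h5.2.2 q hq hd)⟩
      refine le_trans ?_ (hpow (1 / (t : ℝ)) (by positivity))
      apply Real.rpow_le_rpow_of_exponent_le hN1
      push_cast
      rw [div_div, div_le_div_iff₀ (by positivity) (by positivity)]
      nlinarith
    · intro z hz hz1 hz2 hz3
      have hw : ε / 2 * Real.log N ≤ ε * Real.log B := by nlinarith
      have hw2 : ε * Real.log B < s₀ := by linarith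
      have hpos : (0 : ℝ) < z := by
        rcases hz with h | h | h
        · have := (abs_le.1 h).1
          linarith
        · have := (abs_le.1 h).1
          linarith
        · have := (abs_le.1 h).1
          linarith
      have hposz : (0 : ℤ) < z := by exact_mod_cast hpos
      have hNp : (0 : ℤ) < (N : ℤ) - p := by
        have : (p : ℝ) < N := by linarith
        have h7 : (p : ℤ) < N := by exact_mod_cast this
        omega
      have hex : ∀ v' ∈ vals ![(6 : ℤ)] ![(0 : ℤ)] N p, z ≠ v' ∧ z ≠ -v' := by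
        intro v' hv'
        rcases hvall v' hv' with rfl | rfl | rfl
        · exact ⟨hz1, by omega⟩
        · exact ⟨hz2, by omega⟩
        · exact ⟨hz3, by omega⟩
      have hfin : ∃ q : ℕ, q.Prime ∧ (q : ℝ) ≤ (B : ℝ) ^ β ∧ (q : ℤ) ∣ z := by
        rcases hz with h | h | h
        · exact g6 _ hvp z (by push_cast; exact h.trans hw) hex
        · exact g6 _ hvp6 z (by push_cast; exact h.trans hw) hex
        · exact g6 _ hvN z (by push_cast; exact h.trans hw) hex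
      obtain ⟨q, hq1, hq2, hq3⟩ := hfin
      exact ⟨q, hq1, hq2.trans (Real.rpow_le_rpow hBpos.le hBN hβ.le), hq3⟩
  exact_mod_cast card_le_card hsub

open Classical in
/-- **Chen primes and almost primes, for every `N`.** -/
theorem result :
    (∀ (J K : ℕ) (f : Fin J → ℤ) (g : Fin K → ℤ) (j : Fin J), f j ≠ 0 →
      ∃ t : ℕ, 1 ≤ t ∧ ∃ κ : ℝ, 0 < κ ∧ ∀ β : ℝ, 0 < β → ∃ ε C : ℝ, 0 < ε ∧ ∀ (a s r : ℕ) (η δ : ℝ), 1 ≤ s → 0 < η →
      0 < δ → ∃ c X₀ : ℕ, ∀ X N : ℕ, X₀ ≤ X → N ≤ X ^ a → Local f g N →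
      κ / Real.log X ^ (J + K + 1) ≤ V f g N X ∧ ∀ A B : ℕ, B ≤ X → η * X ≤ (B : ℝ) - A →
        κ * ((B : ℝ) - A) * V f g N X ≤
          ((Good f g j t ((a + 3) * t) N X (ε * Real.log X) ((X : ℝ) ^ β) A B).card : ℝ) ∧
        ((Rough f g N ((X : ℝ) ^ β) A B).card : ℝ) ≤ C * ((B : ℝ) - A) * V f g N X ∧
        ∀ χ : ℕ → Fin r, ∃ P : Finset (ℕ × ℕ),
          (∀ z ∈ P, 1 ≤ z.2 ∧ (z.2 : ℝ) ≤ Real.log X ^ c ∧
            ∀ m < s, z.1 + m * z.2 ∈ Good f g j t ((a + 3) * t) N X (ε * Real.log X) ((X : ℝ) ^ β) A B ∧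
              χ (z.1 + m * z.2) = χ z.1) ∧
          (P : Set (ℕ × ℕ)).PairwiseDisjoint (terms s) ∧
          (((Good f g j t ((a + 3) * t) N X (ε * Real.log X) ((X : ℝ) ^ β) A B \ P.biUnion (terms s)).card : ℕ) : ℝ) ≤
            δ * ((B : ℝ) - A) * V f g N X) ∧
    ∃ t : ℕ, 1 ≤ t ∧ ∃ κ : ℝ, 0 < κ ∧ ∀ β : ℝ, 0 < β → ∃ ε : ℝ, 0 < ε ∧ ∃ N₀ : ℕ, ∀ N : ℕ, N₀ ≤ N →
      2 ∣ N → κ * (Real.sqrt N / Real.log N ^ 3) ≤ (((range N).filter (fun p : ℕ => p.Prime ∧ Real.sqrt N < p ∧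
      (p : ℝ) < 4 * Real.sqrt N ∧ AlmostPrime 2 ((N : ℝ) ^ (1 / 18 : ℝ)) (p + 6) ∧
      AlmostPrime t ((N : ℝ) ^ (1 / (t : ℝ))) (N - p) ∧
      ∀ z : ℤ, (|(z : ℝ) - p| ≤ ε * Real.log N ∨ |(z : ℝ) - (p + 6)| ≤ ε * Real.log N ∨
        |(z : ℝ) - (N - p)| ≤ ε * Real.log N) → z ≠ p → z ≠ p + 6 → z ≠ N - p →
        ∃ q : ℕ, q.Prime ∧ (q : ℝ) ≤ (N : ℝ) ^ β ∧ (q : ℤ) ∣ z)).card : ℝ) :=
  ⟨fun _ _ f g j hj => general f g j hj, window⟩

end Pool.Agent.Results.MP_b58c63_nt.ChenPrimesEveryNumber
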