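import Pool.Agent.T6.H2.CL.Prime

/-!
# Clusters of primes `p ≤ 4 √N` with almost prime `N - p`, for EVERY even number `N`

Every large even number `N` has many isolated clusters of `m` primes `q` between `√N` and `4 √N`, of bounded diameter,
such that ALL the numbers `N - q` are products of a bounded number of large primes; the same for any number of integers
`N` at once. The primes are the only ones at distance at most `ε log N`, and the numbers `N - q` are isolated from all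
other numbers without small prime factors, in the same sense.
-/

set_option autoImplicit false

namespace Pool.Agent.Results.MP_b58c63_nt.ClustersEveryNumber

open Finset Filter

/-- `z` is, up to the sign, a product of at most `r` primes, all larger than `y`, and not `0, 1, -1` -/
def AP (r : ℕ) (y : ℝ) (z : ℤ) : Prop :=
  1 < |z| ∧ z.natAbs.primeFactorsList.length ≤ r ∧ ∀ q : ℕ, q.Prime → (q : ℤ) ∣ z → y < q

/-- `z` has no prime factor `≤ y` -/
def Rough (y : ℝ) (z : ℤ) : Prop := ∀ q : ℕ, q.Prime → (q : ℝ) ≤ y → ¬ (q : ℤ) ∣ z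

/-- `p` is the first of at least `m` primes in `[p, p + C]`; there are no other primes at distance at most `w` of `p`; for
each prime `q` in `[p, p + C]` all the numbers `N l - q` are products of at most `r` primes `> y₀`; and each integer
without prime factors `≤ y` at distance at most `w` of `p` or of some `N l - p` is such a product, too, and is at distance
at most `C` from `p`, respectively from some `N l' - p` -/
def Cluster {K : ℕ} (C m r : ℕ) (y₀ w y : ℝ) (N : Fin K → ℤ) (p : ℕ) : Prop :=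
  p.Prime ∧ m ≤ ((Icc p (p + C)).filter Nat.Prime).card ∧
  (∀ q : ℕ, q.Prime → |(q : ℝ) - p| ≤ w → p ≤ q ∧ q ≤ p + C) ∧
  (∀ q : ℕ, q.Prime → p ≤ q → q ≤ p + C → ∀ l, AP r y₀ (N l - q)) ∧
  (∀ z : ℤ, Rough y z → |(z : ℝ) - p| ≤ w → AP r y₀ z ∧ |z - p| ≤ C) ∧
  ∀ l, ∀ z : ℤ, Rough y z → |(z : ℝ) - ((N l - p : ℤ) : ℝ)| ≤ w → AP r y₀ z ∧ ∃ l', |z - (N l' - p)| ≤ C

/-- `p` lies in a progression of `s` terms with difference at most `H`, all of whose terms `p'` are good and have the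
colour of `p` -/
def InProg (s : ℕ) (H : ℝ) (Good : ℕ → Prop) {h : ℕ} (χ : ℕ → Fin h) (p : ℕ) : Prop :=
  ∃ x e : ℕ, 1 ≤ e ∧ (e : ℝ) ≤ H ∧ (∃ j < s, p = x + j * e) ∧ ∀ j < s, Good (x + j * e) ∧ χ (x + j * e) = χ p

/-- no prime divides one of the numbers `n`, `N l - n` for every `n` -/
def Local {K : ℕ} (N : Fin K → ℤ) : Prop :=
  ∀ q : ℕ, q.Prime → ∃ n : ℤ, ¬ (q : ℤ) ∣ n ∧ ∀ l, ¬ (q : ℤ) ∣ N l - n

open Classical in
/-- the good primes of a window -/
noncomputable def Count {K : ℕ} (s : ℕ) (H : ℝ) (A B : ℝ) (C m r : ℕ) (y₀ w y : ℝ) (N : Fin K → ℤ) {h : ℕ}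
    (χ : ℕ → Fin h) : ℕ :=
  ((Icc 1 ⌊B⌋₊).filter (InProg s H (fun p => A < p ∧ (p : ℝ) + C < B ∧ Cluster C m r y₀ w y N p) χ)).card

section

open Pool.Agent.T6.H2.CL Pool.Agent.X32.Uni

theorem conv {K C m T X : ℕ} {y₀ w y : ℝ} {N : Fin K → ℤ} {p : ℕ} (hN : ∀ l, 5 * (X : ℤ) ≤ N l)
    (hC : (C : ℝ) ≤ w) (hw : 8 * w ≤ X) (h1 : X / 2 < p) (h2 : p ≤ X + C)
    (h : Clu C m T (Fin.cons 1 (fun _ => -1) : Fin (K + 1) → ℤ) (Fin.cons 0 N : Fin (K + 1) → ℤ) y₀ w y p) :
    Cluster C m T y₀ w y N p := by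
  obtain ⟨g1, g2, g3, g4, g5⟩ := h
  have hX0 : (0 : ℝ) ≤ X := Nat.cast_nonneg _
  have hC0 : (0 : ℝ) ≤ C := Nat.cast_nonneg _
  have h8C : 8 * C ≤ X := by
    have : 8 * (C : ℝ) ≤ X := by linarith
    exact_mod_cast this
  have hp0 : 1 ≤ p := g1.one_lt.le
  have hpX : (p : ℝ) ≤ X + C := by exact_mod_cast h2
  have hpX' : (X : ℝ) / 2 ≤ p := by
    have e1 : X ≤ 2 * p := by omega
    have e2 : (X : ℝ) ≤ 2 * p := by exact_mod_cast e1
    linarith
  refine ⟨g1, g2, g3, fun q hq hq1 hq2 l => ?_, fun z hz hzw => ?_, fun l z hz hzw => ?_⟩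
  · have e1 := g4 q hq hq1 hq2 l.succ
    rw [Fin.cons_succ, Fin.cons_succ] at e1
    have e2 : (-1 : ℤ) * (q : ℤ) + N l = N l - q := by ring
    rw [e2] at e1
    exact e1
  · obtain ⟨l', x, e1, e2, e3⟩ := g5 0 z (by
      rw [Fin.cons_zero, Fin.cons_zero]
      push_cast
      simpa using hzw) hz
    refine ⟨e3, ?_⟩
    have e1' := abs_le.1 e1
    have e4 := abs_le.1 hzw
    have hz1 : (X : ℝ) / 4 ≤ z := by linarith [e4.1]
    have hz2 : (z : ℝ) < 3 * X ∨ (X : ℝ) = 0 := by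
      by_cases hX : (X : ℝ) = 0
      · exact Or.inr hX
      · left
        have : (0 : ℝ) < X := lt_of_le_of_ne hX0 (Ne.symm hX)
        linarith [e4.2]
    revert e2
    refine Fin.cases ?_ (fun l' => ?_) l'
    · rw [Fin.cons_zero, Fin.cons_zero]
      intro e2
      rcases e2 with e2 | e2
      · rw [e2, one_mul, add_zero]
        exact e1
      · exfalso
        have e5 : (z : ℝ) = -(x : ℝ) := by
          rw [e2]
          push_cast
          ring
        have e6 : ((p : ℤ) : ℝ) - C ≤ x := by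
          have : (p : ℤ) - C ≤ x := by linarith [e1'.1]
          exact_mod_cast this
        push_cast at e6
        have hp1 : (1 : ℝ) ≤ p := by exact_mod_cast hp0
        linarith
    · rw [Fin.cons_succ, Fin.cons_succ]
      intro e2
      exfalso
      have e5 := hN l'
      have e6 : x ≤ p + C := by linarith [e1'.2]
      have e7 : (p : ℤ) ≤ X + C := by exact_mod_cast h2
      have e8 : 8 * (C : ℤ) ≤ X := by exact_mod_cast h8C
      have e9 : 3 * (X : ℤ) ≤ N l' - x := by linarith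
      have e10 : 3 * (X : ℝ) ≤ (N l' : ℝ) - x := by exact_mod_cast e9
      rcases e2 with e2 | e2
      · have e11 : (z : ℝ) = (N l' : ℝ) - x := by
          rw [e2]
          push_cast
          ring
        rcases hz2 with hz2 | hz2
        · linarith
        · rw [hz2] at hpX' hpX hw
          have hp1 : (1 : ℝ) ≤ p := by exact_mod_cast hp0
          linarith
      · have e11 : (z : ℝ) = -((N l' : ℝ) - x) := by
          rw [e2]
          push_cast
          ring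
        have hp1 : (1 : ℝ) ≤ p := by exact_mod_cast hp0
        linarith [e4.1]
  · obtain ⟨l', x, e1, e2, e3⟩ := g5 l.succ z (by
      rw [Fin.cons_succ, Fin.cons_succ]
      have : ((-1 * (p : ℤ) + N l : ℤ) : ℝ) = ((N l - p : ℤ) : ℝ) := by push_cast; ring
      rw [this]
      exact hzw) hz
    refine ⟨e3, ?_⟩
    have e1' := abs_le.1 e1
    have e4 := abs_le.1 hzw
    have e5 := hN l
    have e5' : 5 * (X : ℝ) ≤ N l := by exact_mod_cast e5
    have hp1 : (1 : ℝ) ≤ p := by exact_mod_cast hp0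
    have e6 : (x : ℝ) ≤ p + C := by
      have : x ≤ (p : ℤ) + C := by linarith [e1'.2]
      exact_mod_cast this
    have e6' : (p : ℝ) - C ≤ x := by
      have : (p : ℤ) - C ≤ x := by linarith [e1'.1]
      exact_mod_cast this
    have e7 : (N l : ℝ) - p - w ≤ z := by
      have := e4.1
      push_cast at this
      linarith
    revert e2
    refine Fin.cases ?_ (fun l' => ?_) l'
    · rw [Fin.cons_zero, Fin.cons_zero]
      intro e2
      exfalso
      rcases e2 with e2 | e2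
      · have e8 : (z : ℝ) = x := by
          rw [e2]
          push_cast
          ring
        linarith
      · have e8 : (z : ℝ) = -(x : ℝ) := by
          rw [e2]
          push_cast
          ring
        linarith
    · rw [Fin.cons_succ, Fin.cons_succ]
      intro e2
      have e5'' : 5 * (X : ℝ) ≤ N l' := by exact_mod_cast hN l'
      rcases e2 with e2 | e2
      · refine ⟨l', ?_⟩
        have e8 : z - (N l' - p) = -(x - p) := by rw [e2]; ring
        rw [e8, abs_neg]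
        exact e1
      · exfalso
        have e8 : (z : ℝ) = -((N l' : ℝ) - x) := by
          rw [e2]
          push_cast
          ring
        linarith

theorem ap_mono {r r' : ℕ} {y y' : ℝ} (hr : r ≤ r') (hy : y' ≤ y) {z : ℤ} (h : AP r y z) : AP r' y' z :=
  ⟨h.1, h.2.1.trans hr, fun q hq hd => lt_of_le_of_lt hy (h.2.2 q hq hd)⟩

theorem cluster_mono {K C m r r' : ℕ} {y₀ y₀' w w' y y' : ℝ} {N : Fin K → ℤ} (hr : r ≤ r') (h0 : y₀' ≤ y₀) (hw : w' ≤ w)
    (hy : y ≤ y') {p : ℕ} (h : Cluster C m r y₀ w y N p) : Cluster C m r' y₀' w' y' N p := by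
  obtain ⟨g1, g2, g3, g4, g5, g6⟩ := h
  have hrough : ∀ z, Rough y' z → Rough y z := fun z hz q hq hqy => hz q hq (hqy.trans hy)
  exact ⟨g1, g2, fun q hq hqw => g3 q hq (hqw.trans hw), fun q hq h1 h2 l => ap_mono hr h0 (g4 q hq h1 h2 l),
    fun z hz hzw => ⟨ap_mono hr h0 (g5 z (hrough z hz) (hzw.trans hw)).1, (g5 z (hrough z hz) (hzw.trans hw)).2⟩,
    fun l z hz hzw => ⟨ap_mono hr h0 (g6 l z (hrough z hz) (hzw.trans hw)).1, (g6 l z (hrough z hz) (hzw.trans hw)).2⟩⟩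

/-- the version with sets -/
theorem base (K m : ℕ) : ∃ C D t : ℕ, 1 ≤ t ∧ ∃ c : ℝ, 0 < c ∧ ∀ β : ℝ, 0 < β → ∃ ε : ℝ, 0 < ε ∧
    ∀ a s h : ℕ, 1 ≤ s → ∃ d X₀ : ℕ, ∀ X : ℕ, X₀ ≤ X → ∀ N : Fin K → ℤ,
      (∀ l, 5 * (X : ℤ) ≤ N l ∧ N l ≤ (X : ℤ) ^ a) → Local N → ∀ χ : ℕ → Fin h, ∃ S : Finset ℕ,
        c * X / Real.log X ^ D ≤ (S.card : ℝ) ∧ ∀ p ∈ S, InProg s (Real.log X ^ d) (fun p => (X : ℝ) / 2 < p ∧
          p ≤ X + C ∧ Cluster C m ((a + 3) * t) ((X : ℝ) ^ (1 / (t : ℝ))) (ε * Real.log X) ((X : ℝ) ^ β) N p) χ p := by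
  classical
  obtain ⟨C, D, t, ht, c, hc, H⟩ := cluP (K + 1) m (by omega)
  refine ⟨C, D, t, ht, c, hc, fun β hβ => ?_⟩
  obtain ⟨ε, hε, H⟩ := H β 1 hβ
  refine ⟨ε, hε, fun a s h hs => ?_⟩
  obtain ⟨d, X₁, H⟩ := H a s h hs
  have hlogt : Tendsto (fun X : ℕ => Real.log (X : ℝ)) atTop atTop :=
    Real.tendsto_log_atTop.comp tendsto_natCast_atTop_atTop
  obtain ⟨X₂, h2⟩ := eventually_atTop.1 ((hlogt.eventually_ge_atTop ((C : ℝ) / ε)).and (log_small 1 (8 * ε)))
  refine ⟨d, X₁ + X₂ + 2, fun X hX N hN hloc χ => ?_⟩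
  obtain ⟨g1, g2⟩ := h2 X (by omega)
  rw [div_le_iff₀ hε] at g1
  rw [pow_one] at g2
  obtain ⟨S, hS1, hS2⟩ := H X (by omega) (Fin.cons 1 (fun _ => -1)) (Fin.cons 0 N)
    { a0 := fun l => by
        refine Fin.cases ?_ (fun l => ?_) l
        · rw [Fin.cons_zero]; norm_num
        · rw [Fin.cons_succ]; norm_num
      aE := fun l => by
        refine Fin.cases ?_ (fun l => ?_) l
        · rw [Fin.cons_zero]; norm_num
        · rw [Fin.cons_succ]; norm_num
      bX := fun l => by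
        refine Fin.cases ?_ (fun l => ?_) l
        · rw [Fin.cons_zero, abs_zero]; positivity
        · rw [Fin.cons_succ, abs_of_nonneg (le_trans (by positivity) (hN l).1)]
          exact (hN l).2
      adm := fun q hq => by
        obtain ⟨n, hn1, hn2⟩ := hloc q hq
        refine ⟨n, fun l => ?_⟩
        refine Fin.cases ?_ (fun l => ?_) l
        · rw [Fin.cons_zero, Fin.cons_zero, one_mul, add_zero]
          exact hn1
        · rw [Fin.cons_succ, Fin.cons_succ]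
          have : (-1 : ℤ) * n + N l = N l - n := by ring
          rw [this]
          exact hn2 l
      id := ⟨0, by rw [Fin.cons_zero], by rw [Fin.cons_zero]⟩ }
    (fun l => by
      refine Fin.cases ?_ (fun l => ?_) l
      · left
        rw [Fin.cons_zero, Fin.cons_zero]
        exact ⟨rfl, rfl⟩
      · right
        intro x hx0 hx2
        rw [Fin.cons_succ, Fin.cons_succ]
        have h1 := (hN l).1
        rw [abs_of_nonneg (by linarith)]
        linarith) χ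
  refine ⟨S, hS1, fun p hp => ?_⟩
  obtain ⟨x, e, e1, e2, e3, e4⟩ := hS2 p hp
  refine ⟨x, e, e1, e2, e3, fun j hj => ?_⟩
  obtain ⟨e5, e6, e7, e8⟩ := e4 j hj
  refine ⟨⟨?_, e7, conv (fun l => (hN l).1) (by linarith) (by linarith) e6 e7 e5⟩, e8⟩
  have h3 : X < 2 * (x + j * e) := by omega
  have h4 : (X : ℝ) < 2 * ((x + j * e : ℕ) : ℝ) := by exact_mod_cast h3
  linarith

end

theorem inProg_mono {s h : ℕ} {H H' : ℝ} {G G' : ℕ → Prop} {χ : ℕ → Fin h} {p : ℕ} (hH : H ≤ H') (hG : ∀ p, G p → G' p)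
    (h : InProg s H G χ p) : InProg s H' G' χ p := by
  obtain ⟨x, e, h1, h2, h3, h4⟩ := h
  exact ⟨x, e, h1, h2.trans hH, h3, fun j hj => ⟨hG _ (h4 j hj).1, (h4 j hj).2⟩⟩

theorem local_even {N : ℕ} (hN : Even N) : Local (fun _ : Fin 1 => (N : ℤ)) := by
  intro q hq
  by_cases h : (q : ℤ) ∣ (N : ℤ) - 1
  · have hq2 : q ≠ 2 := by
      rintro rfl
      obtain ⟨k, hk⟩ := hN
      have h1 : (2 : ℤ) ∣ (N : ℤ) - 1 := h
      omega
    refine ⟨2, fun h2 => ?_, fun _ h2 => ?_⟩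
    · have h3 : q ∣ 2 := by exact_mod_cast h2
      exact hq2 ((Nat.prime_dvd_prime_iff_eq hq Nat.prime_two).1 h3)
    · have h3 := dvd_sub h h2
      have h4 : (N : ℤ) - 1 - (N - 2) = 1 := by ring
      rw [h4] at h3
      have := Int.le_of_dvd one_pos h3
      have := hq.two_le
      omega
  · refine ⟨1, fun h2 => ?_, fun _ h2 => h h2⟩
    have := Int.le_of_dvd one_pos h2
    have := hq.two_le
    omega

/-- **Theorem.** (1) For every `m` there are `C`, `D`, `r` and `c > 0`, and for `β > 0` an `ε > 0`, such that for all `s`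
and `h` there are `d`, `N₀` with: for EVERY even `N ≥ N₀` and every `h`-colouring at least `c √N / (log N) ^ D` primes
between `√N` and `4 √N` lie in an `s`-term progression, of difference at most `(log N) ^ d`, of primes of their colour
which start an isolated cluster of `m` primes `q` with almost prime `N - q`.
(2) The same for any `K` integers `N l` at once, of arbitrary size. -/
theorem result :
    (∀ m : ℕ, ∃ C D r : ℕ, ∃ c : ℝ, 0 < c ∧ ∀ β : ℝ, 0 < β → ∃ ε : ℝ, 0 < ε ∧ ∀ s h : ℕ, 1 ≤ s → ∃ d N₀ : ℕ,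
      ∀ N : ℕ, N₀ ≤ N → Even N → ∀ χ : ℕ → Fin h, c * Real.sqrt N / Real.log N ^ D ≤
        (Count s (Real.log N ^ d) (Real.sqrt N) (4 * Real.sqrt N) C m r ((N : ℝ) ^ (1 / (r : ℝ))) (ε * Real.log N)
          ((N : ℝ) ^ β) (fun _ : Fin 1 => (N : ℤ)) χ : ℝ)) ∧
    ∀ K m : ℕ, ∃ C D t : ℕ, 1 ≤ t ∧ ∃ c : ℝ, 0 < c ∧ ∀ β : ℝ, 0 < β → ∃ ε : ℝ, 0 < ε ∧ ∀ a s h : ℕ, 1 ≤ s →
      ∃ d X₀ : ℕ, ∀ X : ℕ, X₀ ≤ X → ∀ N : Fin K → ℤ, (∀ l, 5 * (X : ℤ) ≤ N l ∧ N l ≤ (X : ℤ) ^ a) → Local N →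
        ∀ χ : ℕ → Fin h, c * X / Real.log X ^ D ≤
          (Count s (Real.log X ^ d) (X / 2) (2 * X) C m ((a + 3) * t) ((X : ℝ) ^ (1 / (t : ℝ))) (ε * Real.log X)
            ((X : ℝ) ^ β) N χ : ℝ) := by
  classical
  refine ⟨fun m => ?_, fun K m => ?_⟩
  · obtain ⟨C, D, t, ht, c, hc, H⟩ := base 1 m
    have ht0 : (0 : ℝ) < t := by exact_mod_cast ht
    refine ⟨C, D, 5 * t, c, hc, fun β hβ => ?_⟩
    obtain ⟨ε, hε, H⟩ := H β hβ
    refine ⟨ε / 2, by positivity, fun s h hs => ?_⟩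
    obtain ⟨d, X₀, H⟩ := H 2 s h hs
    refine ⟨d, X₀ ^ 2 + (4 * C + 200) ^ 2, fun N hN hev χ => ?_⟩
    obtain ⟨u, hu⟩ : ∃ u : ℕ, u = ⌈Real.sqrt N⌉₊ := ⟨_, rfl⟩
    have hu1 : Real.sqrt N ≤ u := by rw [hu]; exact Nat.le_ceil _
    have hu2 : (u : ℝ) < Real.sqrt N + 1 := by rw [hu]; exact Nat.ceil_lt_add_one (Real.sqrt_nonneg _)
    have hN0 : (0 : ℝ) ≤ N := Nat.cast_nonneg _
    have hsq : Real.sqrt N * Real.sqrt N = N := Real.mul_self_sqrt hN0
    have hs1 : (X₀ : ℝ) ≤ Real.sqrt N := by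
      apply Real.le_sqrt_of_sq_le
      exact_mod_cast (by omega : X₀ ^ 2 ≤ N)
    have hs2 : ((4 * C + 200 : ℕ) : ℝ) ≤ Real.sqrt N := by
      apply Real.le_sqrt_of_sq_le
      exact_mod_cast (by omega : (4 * C + 200) ^ 2 ≤ N)
    push_cast at hs2
    have hC0 : (0 : ℝ) ≤ C := Nat.cast_nonneg _
    obtain ⟨X, hX⟩ : ∃ X : ℕ, X = 2 * u := ⟨_, rfl⟩
    have hXr : (X : ℝ) = 2 * u := by rw [hX]; push_cast; ring
    have hX0 : X₀ ≤ X := by
      have : (X₀ : ℝ) ≤ X := by linarith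
      exact_mod_cast this
    have hXN : (X : ℝ) ≤ N := by nlinarith
    have hX1 : (1 : ℝ) < X := by linarith
    have hN1 : (1 : ℝ) < N := by linarith
    have h5 : 5 * (X : ℤ) ≤ N := by
      have : 5 * (X : ℝ) ≤ N := by nlinarith
      exact_mod_cast this
    have h6 : (N : ℤ) ≤ (X : ℤ) ^ 2 := by
      have : (N : ℝ) ≤ (X : ℝ) ^ 2 := by nlinarith
      exact_mod_cast this
    have hlog0 : 0 < Real.log X := Real.log_pos hX1
    have hlogN : 0 < Real.log N := Real.log_pos hN1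
    have hlogle : Real.log X ≤ Real.log N := Real.log_le_log (by linarith) hXN
    have hloghalf : Real.log N / 2 ≤ Real.log X := by
      have e1 : Real.log (Real.sqrt N) = Real.log N / 2 := Real.log_sqrt hN0
      rw [← e1]
      exact Real.log_le_log (by linarith) (by linarith)
    obtain ⟨S, hS1, hS2⟩ := H X hX0 (fun _ => (N : ℤ)) (fun _ => ⟨h5, h6⟩) (local_even hev) χ
    have hlow : c * Real.sqrt N / Real.log N ^ D ≤ c * X / Real.log X ^ D := by
      apply div_le_div₀ (by positivity) _ (by positivity) (pow_le_pow_left₀ hlog0.le hlogle D)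
      apply mul_le_mul_of_nonneg_left _ hc.le
      linarith
    refine hlow.trans (hS1.trans ?_)
    unfold Count
    have hmono : ∀ p : ℕ, ((X : ℝ) / 2 < p ∧ p ≤ X + C ∧ Cluster C m ((2 + 3) * t) ((X : ℝ) ^ (1 / (t : ℝ)))
        (ε * Real.log X) ((X : ℝ) ^ β) (fun _ : Fin 1 => (N : ℤ)) p) →
        (Real.sqrt N < p ∧ (p : ℝ) + C < 4 * Real.sqrt N ∧ Cluster C m (5 * t) ((N : ℝ) ^ (1 / ((5 * t : ℕ) : ℝ)))
          (ε / 2 * Real.log N) ((N : ℝ) ^ β) (fun _ : Fin 1 => (N : ℤ)) p) := by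
      rintro p ⟨h7, h8, h9⟩
      have h8r : (p : ℝ) ≤ X + C := by exact_mod_cast h8
      refine ⟨by linarith, by linarith, cluster_mono (by omega) ?_ (by nlinarith) ?_ h9⟩
      · have e1 : (N : ℝ) ^ (1 / ((5 * t : ℕ) : ℝ)) ≤ (N : ℝ) ^ ((1 / 2) * (1 / (t : ℝ))) := by
          apply Real.rpow_le_rpow_of_exponent_le hN1.le
          push_cast
          rw [← one_div_mul_one_div_rev] 
          have e2 : (0 : ℝ) < 1 / (t : ℝ) := by positivity
          nlinarith
        refine e1.trans ?_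
        rw [Real.rpow_mul hN0, ← Real.sqrt_eq_rpow]
        apply Real.rpow_le_rpow (Real.sqrt_nonneg _) (by linarith) (by positivity)
      · exact Real.rpow_le_rpow (by linarith) hXN hβ.le
    have hcard : S.card ≤ ((Icc 1 ⌊4 * Real.sqrt N⌋₊).filter (InProg s (Real.log N ^ d) (fun p => Real.sqrt N < p ∧
        (p : ℝ) + C < 4 * Real.sqrt N ∧ Cluster C m (5 * t) ((N : ℝ) ^ (1 / ((5 * t : ℕ) : ℝ))) (ε / 2 * Real.log N)
          ((N : ℝ) ^ β) (fun _ : Fin 1 => (N : ℤ)) p) χ)).card := by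
      apply card_le_card
      intro p hp
      have h7 := inProg_mono (pow_le_pow_left₀ hlog0.le hlogle d) hmono (hS2 p hp)
      rw [mem_filter, mem_Icc]
      have h8 := h7
      obtain ⟨x, e, -, -, ⟨j, hj, hpj⟩, h9⟩ := h8
      obtain ⟨⟨h10, h11, h12⟩, -⟩ := h9 j hj
      rw [← hpj] at h10 h11 h12
      refine ⟨⟨h12.1.one_lt.le, Nat.le_floor (by linarith)⟩, h7⟩
    exact_mod_cast hcard
  · obtain ⟨C, D, t, ht, c, hc, H⟩ := base K m
    refine ⟨C, D, t, ht, c, hc, fun β hβ => ?_⟩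
    obtain ⟨ε, hε, H⟩ := H β hβ
    refine ⟨ε, hε, fun a s h hs => ?_⟩
    obtain ⟨d, X₀, H⟩ := H a s h hs
    refine ⟨d, X₀ + 2 * C + 2, fun X hX N hN hloc χ => ?_⟩
    obtain ⟨S, hS1, hS2⟩ := H X (by omega) N hN hloc χ
    refine hS1.trans ?_
    unfold Count
    have hXC : 2 * (C : ℝ) + 2 ≤ X := by exact_mod_cast (by omega : 2 * C + 2 ≤ X)
    have hcard : S.card ≤ ((Icc 1 ⌊2 * (X : ℝ)⌋₊).filter (InProg s (Real.log X ^ d) (fun p => (X : ℝ) / 2 < p ∧
        (p : ℝ) + C < 2 * X ∧ Cluster C m ((a + 3) * t) ((X : ℝ) ^ (1 / (t : ℝ))) (ε * Real.log X)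
          ((X : ℝ) ^ β) N p) χ)).card := by
      apply card_le_card
      intro p hp
      have h7 := inProg_mono (G' := fun p => (X : ℝ) / 2 < p ∧
        (p : ℝ) + C < 2 * X ∧ Cluster C m ((a + 3) * t) ((X : ℝ) ^ (1 / (t : ℝ))) (ε * Real.log X)
          ((X : ℝ) ^ β) N p) le_rfl (fun p hp => by
            obtain ⟨h8, h9, h10⟩ := hp
            have h9r : (p : ℝ) ≤ X + C := by exact_mod_cast h9
            exact ⟨h8, by linarith, h10⟩) (hS2 p hp)
      rw [mem_filter, mem_Icc]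
      have h8 := h7
      obtain ⟨x, e, -, -, ⟨j, hj, hpj⟩, h9⟩ := h8
      obtain ⟨⟨h10, h11, h12⟩, -⟩ := h9 j hj
      rw [← hpj] at h10 h11 h12
      have hC0 : (0 : ℝ) ≤ C := Nat.cast_nonneg _
      refine ⟨⟨h12.1.one_lt.le, Nat.le_floor (by linarith)⟩, h7⟩
    exact Nat.cast_le.2 hcard

end Pool.Agent.Results.MP_b58c63_nt.ClustersEveryNumber
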