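import Pool.Agent.T6.H57.FinS

/-!
# Goldbach with a prime in `(√N, 4 √N)` and an almost prime: very few exceptions

`Λ_r = 1 + log ((1 + 3 ^ r) / 4) / log 3` is the constant of Richert's weights. For `θ / 2 ≤ τ < θ ≤ 1` with
`τ Λ_r > 1` all even `N ≤ X` but at most `C X ^ (2 τ - θ + ε)` have, for EVERY `x` with `N ^ θ ≤ x ≤ N / 2`, at least
`δ 𝔖(N) x / (log N) ^ 2` primes `p` in `(x / 4, x)` such that `N - p` has at most `r` prime factors. In the window
`(√N, 4 √N)` of the conjecture: three prime factors with `O(X ^ (2 / 9))` exceptions, four prime factors with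
`O(X ^ (1 / 29))` exceptions. The new tool is a large sieve for the characteristic function of a sparse set, which
reaches below the exponent `1 / 2`.
-/

set_option autoImplicit false

open Finset Filter

namespace Pool.Agent.Results.MP_b58c63_nt.FewExceptionsAllScales

/-- the variable part of the singular series of the Goldbach problem -/
noncomputable def sing (N : ℕ) : ℝ :=
  ∏ p ∈ N.primeFactors.erase 2, (((p : ℝ) - 1) / ((p : ℝ) - 2))

/-- Richert's constant `Λ_r = 1 + log ((1 + 3 ^ r) / 4) / log 3` -/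
noncomputable def richert (r : ℕ) : ℝ := 1 + Real.log ((1 + 3 ^ r) / 4) / Real.log 3

open Classical in
/-- The number of the primes `p < N` with `x / 4 < p < x` such that `N - p` has at most `r` prime
factors (counted with multiplicity), all of them at least `N ^ ζ / 2`. -/
noncomputable def inWindow (r : ℕ) (ζ x : ℝ) (N : ℕ) : ℕ :=
  ((range N).filter (fun p : ℕ => p.Prime ∧ x / 4 < p ∧ (p : ℝ) < x ∧
    (N - p).primeFactorsList.length ≤ r ∧
    ∀ q : ℕ, q.Prime → q ∣ (N - p) → (N : ℝ) ^ ζ / 2 ≤ q)).card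

open Classical in
/-- **Very few exceptions.** First part: all scales, all numbers `r` of prime factors. Second and
third part: the window `(√N, 4 √N)` of the conjecture, three and four prime factors. -/
theorem result :
    (∀ (r : ℕ) (θ τ ε : ℝ), 1 ≤ r → 0 < θ → θ ≤ 1 → θ / 2 ≤ τ → τ < θ → 1 < τ * richert r →
      0 < ε → ∃ δ C : ℝ, 0 < δ ∧ 0 < C ∧ ∀ X : ℕ, 1 ≤ X →
        (((Icc 1 X).filter (fun N : ℕ => Even N ∧ ∃ x : ℝ, (N : ℝ) ^ θ ≤ x ∧ x ≤ N / 2 ∧
          (inWindow r (τ / 4) x N : ℝ) < δ * sing N * (x / Real.log N ^ 2))).card : ℝ) ≤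
        C * (X : ℝ) ^ (2 * τ - θ + ε)) ∧
    (∃ δ C : ℝ, 0 < δ ∧ 0 < C ∧ ∀ X : ℕ, 1 ≤ X →
      (((Icc 1 X).filter (fun N : ℕ => Even N ∧ (inWindow 3 (9 / 100) (4 * √(N : ℝ)) N : ℝ) <
        δ * sing N * (√(N : ℝ) / Real.log N ^ 2))).card : ℝ) ≤ C * (X : ℝ) ^ ((2 : ℝ) / 9)) ∧
    (∃ δ C : ℝ, 0 < δ ∧ 0 < C ∧ ∀ X : ℕ, 1 ≤ X →
      (((Icc 1 X).filter (fun N : ℕ => Even N ∧ (inWindow 4 (1 / 15) (4 * √(N : ℝ)) N : ℝ) <
        δ * sing N * (√(N : ℝ) / Real.log N ^ 2))).card : ℝ) ≤ C * (X : ℝ) ^ ((1 : ℝ) / 29)) := by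
  have hw : ∀ (r : ℕ) (ζ : ℝ) (N : ℕ), inWindow r ζ (4 * √(N : ℝ)) N =
      Pool.Agent.Y882.GX.inSqrt r ((N : ℝ) ^ ζ / 2) N := by
    intro r ζ N
    unfold inWindow Pool.Agent.Y882.GX.inSqrt
    have : 4 * √(N : ℝ) / 4 = √(N : ℝ) := by ring
    rw [this]
  refine ⟨?_, ?_, ?_⟩
  · intro r θ τ ε hr hθ0 hθ1 hτ2 hτθ hL hε
    exact Pool.Agent.T6.H57.everyScaleS r hr θ τ ε hθ0 hθ1 hτ2 hτθ hL hε
  · simp only [hw]
    exact Pool.Agent.T6.H57.winOf 3 (by norm_num) (361 / 1000) (9 / 100) (2 / 9) (by norm_num)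
      (by norm_num) Pool.Agent.T6.H57.Lam3 (by norm_num) (by norm_num)
  · simp only [hw]
    exact Pool.Agent.T6.H57.winOf 4 (by norm_num) (2669 / 10000) (1 / 15) (1 / 29) (by norm_num)
      (by norm_num) Pool.Agent.T6.H57.Lam4 (by norm_num) (by norm_num)

end Pool.Agent.Results.MP_b58c63_nt.FewExceptionsAllScales
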