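import Pool.Agent.T6.H57.Rough

/-!
# Goldbach with a prime in `(√N, 4 √N)` and a rough number: few exceptions below the exponent `1 / 2`

Let `0 < θ ≤ 1` and `θ / 4 ≤ u < θ / 2`. All even `N ≤ X` but at most `C X ^ (4 u - θ + ε)` have, for EVERY `x` with
`N ^ θ ≤ x ≤ N / 2`, at least `δ 𝔖(N) x / (log N) ^ 2` primes `p` in `(x / 4, x)` such that all prime factors of
`N - p` are larger than `N ^ u`. The window of the conjecture is `x = 4 √N` (`θ = 1 / 2`): there the number of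
exceptions is `O(X ^ (4 u - 1 / 2 + ε))` for `1 / 8 ≤ u < 1 / 4`.
-/

set_option autoImplicit false

open Finset

namespace Pool.Agent.Results.MP_b58c63_nt.RoughFewExceptions

/-- the variable part of the singular series of the Goldbach problem -/
noncomputable def sing (N : ℕ) : ℝ :=
  ∏ p ∈ N.primeFactors.erase 2, (((p : ℝ) - 1) / ((p : ℝ) - 2))

open Classical in
/-- the number of the primes `p < N` with `x / 4 < p < x` such that all the prime factors of `N - p`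
are larger than `N ^ u` -/
noncomputable def inRough (u x : ℝ) (N : ℕ) : ℕ :=
  ((range N).filter (fun p : ℕ => p.Prime ∧ x / 4 < p ∧ (p : ℝ) < x ∧
    ∀ q : ℕ, q.Prime → q ∣ (N - p) → (N : ℝ) ^ u < q)).card

open Classical in
/-- For `0 < θ ≤ 1`, `θ / 4 ≤ u < θ / 2`, `ε > 0`: all even `N ≤ X` but at most
`C X ^ (4 u - θ + ε)` have for every `x` in `[N ^ θ, N / 2]` at least `δ 𝔖(N) x / (log N) ^ 2`
primes `p` in `(x / 4, x)` with all prime factors of `N - p` larger than `N ^ u`. -/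
theorem result (θ u ε : ℝ) (hθ0 : 0 < θ) (hθ1 : θ ≤ 1) (hu1 : θ / 4 ≤ u) (hu2 : u < θ / 2)
    (hε : 0 < ε) :
    ∃ δ C : ℝ, 0 < δ ∧ 0 < C ∧ ∀ X : ℕ, 1 ≤ X →
      (((Icc 1 X).filter (fun N : ℕ => Even N ∧ ∃ x : ℝ, (N : ℝ) ^ θ ≤ x ∧ x ≤ N / 2 ∧
        (inRough u x N : ℝ) < δ * sing N * (x / Real.log N ^ 2))).card : ℝ) ≤
      C * (X : ℝ) ^ (4 * u - θ + ε) :=
  Pool.Agent.T6.H57.everyScaleR θ u ε hθ0 hθ1 hu1 hu2 hε

end Pool.Agent.Results.MP_b58c63_nt.RoughFewExceptions
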